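import Pool.Agent.R479.DA.Exact
import Pool.Agent.Results.MP_7aad9f_nt.ApproximatingFractions

/-!
# Oesterlé's inequality at the approximations of a real number: exact dimensions and a zero-one law

For `M > 0`, `τ > 0` and a real number `ξ` consider the fractions `p / q` in lowest terms in `(0, 1)`
with `|ξ - p / q| ≤ q ^ (-τ)` whose abc-triple `(p, q - p, q)` violates Oesterlé's inequality
`q < rad (p (q - p) q) ^ M`.

* For `1 / 3 ≤ M ≤ 1 / 2` the set of the `ξ` with infinitely many such fractions has Hausdorff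
  dimension exactly `min (1, (1 / M - 1) / τ)`; for `1 / 3 ≤ M < 1` this is a lower bound.
* For almost every `ξ` in `(0, 1)` and all `1 / 3 ≤ M ≤ 1 / 2`, `τ ≠ 1 / M - 1`, there are infinitely
  many such fractions if and only if `τ < 1 / M - 1`.

The upper bounds are the count of the abc-triples of small radical (starting hand-in
`MP_7aad9f_nt.ApproximatingFractions`), the lower bounds are a Dirichlet argument with denominators
`2 ^ m d` and the mass transference principle (starting modules `Pool.Agent.R479.DA`,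
`Pool.Agent.R331.MT`).
-/

set_option autoImplicit false

namespace Pool.Agent.Results.MP_2ec8a3_nt.ExactDimension

open MeasureTheory Filter
open scoped ENNReal NNReal

/-- the product of the primes dividing `n` -/
def rad (n : ℕ) : ℕ := ∏ p ∈ n.primeFactors, p

/-- The pairs `(p, q)` of coprime integers with `0 < p < q` and `|ξ - p / q| ≤ q ^ (-τ)` whose
abc-triple `(p, q - p, q)` violates the inequality `q < rad (p (q - p) q) ^ M`. -/
def Exceptions (M τ ξ : ℝ) : Set (ℕ × ℕ) :=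
  {t | 0 < t.1 ∧ t.1 < t.2 ∧ Nat.Coprime t.1 t.2 ∧ |ξ - (t.1 : ℝ) / t.2| ≤ (t.2 : ℝ) ^ (-τ) ∧
    ¬ (t.2 : ℝ) < (rad (t.1 * (t.2 - t.1) * t.2) : ℝ) ^ M}

lemma rad_pos (n : ℕ) : 0 < rad n :=
  Finset.prod_pos fun _ hp => (Nat.prime_of_mem_primeFactors hp).pos

lemma viol_iff {M : ℝ} (hM : 0 < M) (p q : ℕ) :
    (¬ (q : ℝ) < (rad (p * (q - p) * q) : ℝ) ^ M) ↔
      (rad (p * q * (q - p)) : ℝ) ≤ 1 * (q : ℝ) ^ (1 / M) := by
  rw [show p * (q - p) * q = p * q * (q - p) by ring, not_lt, one_mul]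
  have hr : (0 : ℝ) ≤ (rad (p * q * (q - p)) : ℝ) := Nat.cast_nonneg _
  have hq0 : (0 : ℝ) ≤ (q : ℝ) := Nat.cast_nonneg _
  rw [Real.le_rpow_inv_iff_of_pos hr hq0 hM |>.symm, one_div]

lemma exc_eq {M : ℝ} (hM : 0 < M) (τ ξ : ℝ) : Exceptions M τ ξ =
    {t | t ∈ Pool.Agent.R479.DA.Sm 1 (1 / M) ∧ |ξ - (t.1 : ℝ) / t.2| ≤ (t.2 : ℝ) ^ (-τ)} := by
  ext ⟨p, q⟩
  constructor
  · rintro ⟨h1, h2, h3, h4, h5⟩
    simp only at h1 h2 h3 h4 h5
    exact ⟨⟨h1, h2, h3, (viol_iff hM p q).1 h5⟩, h4⟩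
  · rintro ⟨⟨h1, h2, h3, h5⟩, h4⟩
    simp only at h1 h2 h3 h4 h5
    exact ⟨h1, h2, h3, h4, (viol_iff hM p q).2 h5⟩

lemma set_eq {M : ℝ} (hM : 0 < M) (τ : ℝ) :
    {ξ : ℝ | (Exceptions M τ ξ).Infinite} = Pool.Agent.R479.DA.WW 1 (1 / M) τ := by
  unfold Pool.Agent.R479.DA.WW
  simp only [exc_eq hM]

lemma exc_eq' {M : ℝ} (hM : 0 < M) (τ ξ : ℝ) : Exceptions M τ ξ =
    MP_7aad9f_nt.ApproximatingFractions.Exceptions τ (1 / M) 1 ξ := by
  rw [exc_eq hM, MP_7aad9f_nt.ApproximatingFractions.exc_eq]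

/-- the exceptions for larger parameters are exceptions for smaller parameters -/
lemma exc_mono {M M' τ τ' ξ : ℝ} (hM : M ≤ M') (hτ : τ ≤ τ') :
    Exceptions M' τ' ξ ⊆ Exceptions M τ ξ := by
  rintro ⟨p, q⟩ ⟨h1, h2, h3, h4, h5⟩
  simp only at h1 h2 h3 h4 h5
  have hq : (1 : ℝ) ≤ (q : ℝ) := by
    have : 1 ≤ q := by omega
    exact_mod_cast this
  refine ⟨h1, h2, h3, h4.trans (Real.rpow_le_rpow_of_exponent_le hq (by linarith)), fun h6 => h5 ?_⟩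
  simp only at h6
  refine lt_of_lt_of_le h6 (Real.rpow_le_rpow_of_exponent_le ?_ hM)
  have := rad_pos (p * (q - p) * q)
  exact_mod_cast this

/-- below the threshold -/
lemma ae_infinite : ∀ᵐ ξ : ℝ, ξ ∈ Set.Ioo (0 : ℝ) 1 → ∀ M τ : ℝ, 1 / 3 ≤ M → M < 1 →
    τ < 1 / M - 1 → (Exceptions M τ ξ).Infinite := by
  have h0 : ∀ r s : ℚ, ∀ᵐ ξ : ℝ, ξ ∈ Set.Ioo (0 : ℝ) 1 → 1 / 3 ≤ (r : ℝ) → (r : ℝ) < 1 →
      (s : ℝ) < 1 / (r : ℝ) - 1 → (Exceptions r s ξ).Infinite := by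
    intro r s
    by_cases hr : 1 / 3 ≤ (r : ℝ) ∧ (r : ℝ) < 1 ∧ (s : ℝ) < 1 / (r : ℝ) - 1
    · obtain ⟨h1, h2, h3⟩ := hr
      have hr0 : (0 : ℝ) < r := by linarith
      have h4 : (1 : ℝ) < 1 / (r : ℝ) := by rw [lt_div_iff₀ hr0]; linarith
      have h5 : 1 / (r : ℝ) ≤ 3 := by rw [div_le_iff₀ hr0]; linarith
      filter_upwards [Pool.Agent.R479.DA.ae_WW (B := 1) h4 h5 one_pos h3] with ξ hξ h01 _ _ _
      have h6 := hξ h01
      rw [← set_eq hr0] at h6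
      exact h6
    · exact Eventually.of_forall fun ξ _ h1 h2 h3 => absurd ⟨h1, h2, h3⟩ hr
  have h1 := ae_all_iff.mpr fun r => ae_all_iff.mpr (h0 r)
  filter_upwards [h1] with ξ hξ h01 M τ hM1 hM2 hτ
  -- rational parameters above
  obtain ⟨s, hs1, hs2⟩ := exists_rat_btwn hτ
  have hM0 : 0 < M := by linarith
  have hcont : ∀ᶠ x in nhdsWithin M (Set.Ioi M), (s : ℝ) < 1 / x - 1 := by
    have h2 : ContinuousAt (fun x : ℝ => 1 / x - 1) M := by
      have : M ≠ 0 := hM0.ne'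
      fun_prop (disch := assumption)
    exact nhdsWithin_le_nhds (h2.eventually (lt_mem_nhds hs2))
  have hlt : ∀ᶠ x in nhdsWithin M (Set.Ioi M), x < 1 := nhdsWithin_le_nhds (gt_mem_nhds hM2)
  obtain ⟨x, ⟨hx1, hx2⟩, hx3⟩ := ((hcont.and hlt).and self_mem_nhdsWithin).exists
  have hx3' : M < x := hx3
  obtain ⟨r, hr1, hr2⟩ := exists_rat_btwn hx3'
  have hr0 : (0 : ℝ) < r := by linarith
  refine (hξ r s h01 (by linarith) (by linarith) ?_).mono (exc_mono hr1.le hs1.le)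
  have h3 : 1 / x ≤ 1 / (r : ℝ) := one_div_le_one_div_of_le hr0 hr2.le
  linarith

/-- above the threshold -/
lemma ae_finite : ∀ᵐ ξ : ℝ, ∀ M τ : ℝ, 0 < M → M ≤ 1 / 2 → 1 / M - 1 < τ →
    (Exceptions M τ ξ).Finite := by
  have h0 : ∀ s : ℚ, ∀ᵐ ξ : ℝ, 1 < (s : ℝ) → ∀ lam : ℝ, lam < 1 + (s : ℝ) → ∀ B : ℝ,
      (MP_7aad9f_nt.ApproximatingFractions.Exceptions s lam B ξ).Finite := by
    intro s
    by_cases hs : 1 < (s : ℝ)
    · filter_upwards [MP_7aad9f_nt.ApproximatingFractions.part_two (s : ℝ) hs] with ξ hξ _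
      exact hξ
    · exact Eventually.of_forall fun ξ h => absurd h hs
  filter_upwards [ae_all_iff.mpr h0] with ξ hξ M τ hM0 hM hτ
  obtain ⟨s, hs1, hs2⟩ := exists_rat_btwn hτ
  have h2 : (2 : ℝ) ≤ 1 / M := by rw [le_div_iff₀ hM0]; linarith
  have h3 := hξ s (by linarith) (1 / M) (by linarith) 1
  rw [← exc_eq' hM0] at h3
  exact h3.subset (exc_mono le_rfl hs2.le)

/-- **Theorem.** (1) For `1 / 3 ≤ M ≤ 1 / 2` and `τ > 0` the set of the real numbers `ξ` such that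
infinitely many fractions `p / q` in lowest terms in `(0, 1)` with `|ξ - p / q| ≤ q ^ (-τ)` violate
`q < rad (p (q - p) q) ^ M` has Hausdorff dimension exactly `min (1, (1 / M - 1) / τ)`. (2) For
`1 / 3 ≤ M < 1` and `τ > 0` its dimension is at least this number. (3) For almost every `ξ` in
`(0, 1)` the following holds for all `M` and `τ`: if `1 / 3 ≤ M < 1` and `τ < 1 / M - 1` there are
infinitely many such fractions, and if `M ≤ 1 / 2` and `τ > 1 / M - 1` there are only finitely many;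
so for `1 / 3 ≤ M ≤ 1 / 2` and `τ ≠ 1 / M - 1` there are infinitely many if and only if
`τ < 1 / M - 1`. -/
theorem result :
    (∀ M τ : ℝ, 1 / 3 ≤ M → M ≤ 1 / 2 → 0 < τ →
      dimH {ξ : ℝ | (Exceptions M τ ξ).Infinite} = ENNReal.ofReal (min 1 ((1 / M - 1) / τ))) ∧
    (∀ M τ : ℝ, 1 / 3 ≤ M → M < 1 → 0 < τ →
      ENNReal.ofReal (min 1 ((1 / M - 1) / τ)) ≤ dimH {ξ : ℝ | (Exceptions M τ ξ).Infinite}) ∧
    (∀ᵐ ξ : ℝ, ξ ∈ Set.Ioo (0 : ℝ) 1 →
      (∀ M τ : ℝ, 1 / 3 ≤ M → M < 1 → τ < 1 / M - 1 → (Exceptions M τ ξ).Infinite) ∧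
      (∀ M τ : ℝ, 0 < M → M ≤ 1 / 2 → 1 / M - 1 < τ → (Exceptions M τ ξ).Finite) ∧
      (∀ M τ : ℝ, 1 / 3 ≤ M → M ≤ 1 / 2 → τ ≠ 1 / M - 1 →
        ((Exceptions M τ ξ).Infinite ↔ τ < 1 / M - 1))) := by
  refine ⟨fun M τ h1 h2 hτ => ?_, fun M τ h1 h2 hτ => ?_, ?_⟩
  · have hM : 0 < M := by linarith
    rw [set_eq hM]
    exact Pool.Agent.R479.DA.dim_exact (by rw [le_div_iff₀ hM]; linarith)
      (by rw [div_le_iff₀ hM]; linarith) one_pos hτ
  · have hM : 0 < M := by linarith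
    rw [set_eq hM]
    exact Pool.Agent.R479.DA.dim_ge (by rw [lt_div_iff₀ hM]; linarith)
      (by rw [div_le_iff₀ hM]; linarith) one_pos hτ
  · filter_upwards [ae_infinite, ae_finite] with ξ h1 h2 h01
    refine ⟨h1 h01, h2, fun M τ hM1 hM2 hτ => ⟨fun h3 => ?_, fun h3 => h1 h01 M τ hM1 (by linarith) h3⟩⟩
    by_contra h4
    exact h3 (h2 M τ (by linarith) hM2 (lt_of_le_of_ne (not_lt.1 h4) (Ne.symm hτ)))

end Pool.Agent.Results.MP_2ec8a3_nt.ExactDimension
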