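import Mathlib
import Pool.Agent.U964.ML.Oes

/-!
# Oesterlé's inequality for the abc triples near a rational point with only one large exponent

Let `(a, b, c)` be an abc triple and `x`, `y` two of its members such that `α x` and `β y` are nearly equal,
`|α x - β y| ≤ c ^ (1 - δ)`, with fixed positive integers `α`, `β` and `δ > 0`: the point `(a : c)` of the
projective line is near a fixed rational point. For `α = β = 1` and `(x, y) = (b, c)` this is the condition
that the third member is small, `a ≤ c ^ (1 - δ)`.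

Suppose that outside a finite set `S` of primes all exponents in the factorisation of `x y` are in
`{n, 2 n, …, m n}` for ONE natural number `n ≥ 1`, for instance `x = s u ^ n` and `y = t v ^ n` with integers
`s`, `t` composed of primes of `S` (with any exponents) and square-free `u`, `v`. The number `n` is
arbitrary; `m` and `S` are fixed. Then Oesterlé's inequality `c < rad (a b c) ^ M` holds with one exponent
`M` for all these triples, and for `n ≥ N` there are only finitely many of them.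

The proof: a lower bound for linear forms in the logarithms of rational numbers which is linear in the height
of the number whose coefficient is `n` bounds `n`; the theorem of Ridout bounds the part of `x y` composed of
the primes of `S` by `c ^ (2 - δ + ε)`, so that the rest, which divides `rad (x y) ^ (m n)`, is at least
`c ^ (δ - 2 ε)`.
-/

set_option autoImplicit false

namespace Pool.Agent.Results.MP_2ec8a3_nt.OneExponentNearRationals

/-- the product of the primes dividing `w` -/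
def radical (w : ℕ) : ℕ := ∏ q ∈ w.primeFactors, q

/-- `(a, b, c)` is an abc triple -/
def IsTriple (a b c : ℕ) : Prop := 0 < a ∧ 0 < b ∧ Nat.Coprime a b ∧ a + b = c

/-- `x`, `y` are two of the three numbers (in the order of the list) -/
def TwoOf (a b c x y : ℕ) : Prop := (x = a ∧ y = b) ∨ (x = a ∧ y = c) ∨ (x = b ∧ y = c)

/-- outside `S` the exponents of `w` are `0`, `n`, `2 n`, …, `m n` -/
def OneExponent (S : Finset ℕ) (m n w : ℕ) : Prop :=
  ∀ q : ℕ, q.Prime → q ∉ S → ∃ k ≤ m, w.factorization q = k * n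

lemma radical_ge {a b c : ℕ} (h : IsTriple a b c) : 2 ≤ radical (a * b * c) := by
  obtain ⟨ha, hb, -, rfl⟩ := h
  have h2 : 2 ∣ a * b * (a + b) := by
    rcases Nat.even_or_odd a with h | h
    · exact ((even_iff_two_dvd.1 h).mul_right _).mul_right _
    · rcases Nat.even_or_odd b with h' | h'
      · exact ((even_iff_two_dvd.1 h').mul_left _).mul_right _
      · exact (even_iff_two_dvd.1 (h.add_odd h')).mul_left _
  have hm : 2 ∈ (a * b * (a + b)).primeFactors :=
    Nat.mem_primeFactors.2 ⟨Nat.prime_two, h2, by positivity⟩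
  have h3 : 2 ∣ radical (a * b * (a + b)) := Finset.dvd_prod_of_mem (fun q => q) hm
  exact Nat.le_of_dvd (Pool.Agent.U964.ML.rad_pos _) h3

lemma radical_mono {v w : ℕ} (hw : w ≠ 0) (h : v ∣ w) : radical v ≤ radical w := by
  apply Nat.le_of_dvd (Pool.Agent.U964.ML.rad_pos _)
  exact Finset.prod_dvd_prod_of_subset _ _ _ (Nat.primeFactors_mono h hw)

theorem result (S : Finset ℕ) (m : ℕ) (δ : ℝ) (hδ : 0 < δ) (hδ1 : δ < 1) (α β : ℕ)
    (hα : 1 ≤ α) (hβ : 1 ≤ β) : ∃ M N B : ℕ, ∀ a b c x y : ℕ, IsTriple a b c → TwoOf a b c x y →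
      |(α : ℝ) * x - β * y| ≤ (c : ℝ) ^ (1 - δ) → ∀ n : ℕ, 1 ≤ n → OneExponent S m n (x * y) →
      c < radical (a * b * c) ^ M ∧ (N ≤ n → c ≤ B) := by
  obtain ⟨K, M, N, hK, h⟩ := Pool.Agent.U964.ML.oes S m δ hδ hδ1 α β hα hβ
  obtain ⟨j, hj⟩ : ∃ j : ℕ, 2 * K < (2:ℝ) ^ j := pow_unbounded_of_one_lt _ (by norm_num)
  obtain ⟨B, hB⟩ : ∃ B : ℕ, 2 * K ≤ B := exists_nat_ge _
  refine ⟨j + M, N, B, ?_⟩
  intro a b c x y hT hxy hclose n hn hone
  have hR2 := radical_ge hT
  obtain ⟨ha, hb, hcop, habc⟩ := hT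
  have hc0 : 0 < c := by omega
  have key : 1 ≤ x ∧ 1 ≤ y ∧ Nat.Coprime x y ∧ c ≤ 2 * max x y ∧ x * y ∣ a * b * c := by
    rcases hxy with ⟨rfl, rfl⟩ | ⟨rfl, rfl⟩ | ⟨rfl, rfl⟩
    · exact ⟨ha, hb, hcop, by omega, Dvd.intro _ rfl⟩
    · refine ⟨ha, hc0, ?_, by omega, ⟨b, by ring⟩⟩
      rw [← habc]
      exact (Nat.coprime_self_add_right).2 hcop
    · refine ⟨hb, hc0, ?_, by omega, ⟨a, by ring⟩⟩
      rw [← habc, Nat.add_comm]
      exact (Nat.coprime_self_add_right).2 hcop.symm
  obtain ⟨hx, hy, hco, hcW, hdvd⟩ := key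
  obtain ⟨W, hW⟩ : ∃ W : ℝ, W = ((max x y : ℕ) : ℝ) := ⟨_, rfl⟩
  have hxW : (x:ℝ) ≤ W := by rw [hW]; exact_mod_cast le_max_left x y
  have hyW : (y:ℝ) ≤ W := by rw [hW]; exact_mod_cast le_max_right x y
  have hcW' : (c:ℝ) ≤ 2 * W := by rw [hW]; exact_mod_cast hcW
  have hW1 : 1 ≤ W := le_trans (by exact_mod_cast hx) hxW
  have hor : (x:ℝ) = W ∨ (y:ℝ) = W := by
    rw [hW]
    rcases le_total x y with h | h
    · right; rw [max_eq_right h]
    · left; rw [max_eq_left h]
  have hclose' : |(α : ℝ) * x - β * y| ≤ 2 * W ^ (1 - δ) := by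
    refine hclose.trans ?_
    have hcr : (0:ℝ) ≤ c := Nat.cast_nonneg _
    calc (c : ℝ) ^ (1 - δ) ≤ (2 * W) ^ (1 - δ) := Real.rpow_le_rpow hcr hcW' (by linarith)
      _ = 2 ^ (1 - δ) * W ^ (1 - δ) := Real.mul_rpow (by norm_num) (by linarith)
      _ ≤ 2 ^ (1 : ℝ) * W ^ (1 - δ) := by
          refine mul_le_mul_of_nonneg_right ?_ (Real.rpow_nonneg (by linarith) _)
          exact Real.rpow_le_rpow_of_exponent_le (by norm_num) (by linarith)
      _ = 2 * W ^ (1 - δ) := by rw [Real.rpow_one]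
  obtain ⟨h1, h2⟩ := h x y hx hy hco W hxW hyW hor hclose' n hn hone
  obtain ⟨R, hR⟩ : ∃ R : ℕ, R = radical (a * b * c) := ⟨_, rfl⟩
  have habc0 : a * b * c ≠ 0 := by positivity
  have hrle : radical (x * y) ≤ R := by rw [hR]; exact radical_mono habc0 hdvd
  have hrle' : ((Pool.Agent.U964.ML.rad (x * y) : ℕ) : ℝ) ≤ R := by exact_mod_cast hrle
  rw [← hR] at hR2 ⊢
  have hR2r : (2:ℝ) ≤ R := by exact_mod_cast hR2
  refine ⟨?_, fun hN => ?_⟩
  · have hpow : (0:ℝ) < (R:ℝ) ^ M := by positivity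
    have h3 : (c:ℝ) < (R:ℝ) ^ (j + M) := by
      calc (c:ℝ) ≤ 2 * W := hcW'
        _ ≤ 2 * (K * (Pool.Agent.U964.ML.rad (x * y) : ℝ) ^ M) := by linarith
        _ ≤ 2 * (K * (R:ℝ) ^ M) := by gcongr
        _ = (2 * K) * (R:ℝ) ^ M := by ring
        _ < 2 ^ j * (R:ℝ) ^ M := mul_lt_mul_of_pos_right hj hpow
        _ ≤ (R:ℝ) ^ j * (R:ℝ) ^ M := by gcongr
        _ = (R:ℝ) ^ (j + M) := by rw [pow_add]
    exact_mod_cast h3
  · have h3 : (c:ℝ) ≤ B := by
      have := h1 hN
      linarith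
    exact_mod_cast h3

end Pool.Agent.Results.MP_2ec8a3_nt.OneExponentNearRationals
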