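import Pool.Agent.S821.Laws
import Pool.Agent.Results.MP_2ec8a3_nt.RadicalSet

/-!
# Oesterlé's inequality for all radicals near the values of arithmetic functions

The radicals `R` of the abc triples (of whatever height) have density about `R ^ (-1/3)`. Call `R` regular with exponent `M` if
it is the radical of exactly one abc triple `(a, b, c)` and `c < R ^ M` for this triple. For every `M > 1/3` (and for no
`M ≤ 1/3` by the starting results) almost all radicals of abc triples are regular. Here: for every `M > 1/3` there is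
`ν > 0` such that ALL radicals of abc triples in the windows of length `v ^ κ`, `κ < 1/3 + ν`, around the values `v = f(m)` of
arithmetic functions are regular, for almost all `m`; such windows are long enough to contain radicals of abc triples. The
functions `f`: multiplicative functions such as Euler's function and the sum of the divisors; the same along the orbits of
Euler's function, for `K(m)` iterates, `K(m) → ∞`; and arbitrary compositions of additive functions. Also powers `α v ^ d`,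
`d (2/3 - ν) + κ < 1`, of such values. The values are taken with very large multiplicities and form thin sets, and so this does
not follow from the number of the exceptions.

Proof. At most `C X ^ (2/3 - ν)` of the radicals up to `X` are not regular (starting theorem `RadicalSet`); values of arithmetic
functions avoid sets with a power saving (`Pool.Agent.S821.Laws`, from the starting library).
-/

set_option autoImplicit false

open Finset Filter

namespace Pool.Agent.Results.MP_2ec8a3_nt.RadicalsNearValues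

open Pool.Agent.N733.TG (LM Expanding)
open Pool.Agent.N760.IT (orb)
open Pool.Agent.N826.IT.Orb (AlmostAll)
open Pool.Agent.N375.AV (PD comp)

/-- the product of the primes dividing `n` -/
def radical (n : ℕ) : ℕ := ∏ p ∈ n.primeFactors, p

/-- the abc triples `(a, b, a + b)`, written `(a, b)`: `a` and `b` are coprime and `1 ≤ a ≤ b` -/
def IsTriple (t : ℕ × ℕ) : Prop := 0 < t.1 ∧ t.1 ≤ t.2 ∧ Nat.Coprime t.1 t.2

/-- the radical of `abc` for the triple `(a, b, a + b)` written `(a, b)` -/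
def rad3 (t : ℕ × ℕ) : ℕ := radical (t.1 * t.2 * (t.1 + t.2))

/-- `R` is the radical of an abc triple, of whatever height -/
def IsRadical (R : ℕ) : Prop := ∃ t, IsTriple t ∧ rad3 t = R

/-- `R` is the radical of exactly one abc triple `(a, b, c)`, and `c < R ^ M` for this triple -/
def Regular (M : ℝ) (R : ℕ) : Prop :=
  ∃ t, IsTriple t ∧ rad3 t = R ∧ (∀ t', IsTriple t' → rad3 t' = R → t' = t) ∧
    ((t.1 + t.2 : ℕ) : ℝ) < (R : ℝ) ^ M

/-- every radical `R ≥ 1` of an abc triple with `|R - x| ≤ v ^ κ` is regular -/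
def AllRegular (M κ : ℝ) (v : ℕ) (x : ℝ) : Prop :=
  ∀ R : ℕ, 1 ≤ R → IsRadical R → |(R : ℝ) - x| ≤ (v : ℝ) ^ κ → Regular M R

/-- **All radicals of abc triples near the values of arithmetic functions are regular.** For every `M > 1/3` there is `ν > 0`
such that for all `G` with steps `≥ const > 0` and growth at most `v ^ d` (`Expanding G d`) and all `κ ≥ 0` with
`d (2/3 - ν) + κ < 1`: (1) for `f` multiplicative and positive, of at most polynomial growth, with `f p ≤ C p` at the large
primes and injective there (`LM f`), and every `U`: for all `m ≤ N` but `N / (log N)^U`, `N` large, all radicals `R` of abc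
triples with `|R - G (f m)| ≤ f(m) ^ κ` are regular; (2) the same for `f(φ_k(m))` in the place of `f(m)`, for almost all `m`,
for all `k ≤ K(m)`, where `φ_k` is the `k`-th iterate of Euler's function and `K(m) → ∞`; (3) for `F = f_1 ∘ ⋯ ∘ f_r`, the `f_i`
dominated by the largest prime factor (`PD`), the same for all `m ≤ N` but `K N exp (- c (log N) ^ (1 / (r + 1)))`. (4) Examples
of such functions. -/
theorem result :
    (∀ M : ℝ, 1 / 3 < M → ∃ ν : ℝ, 0 < ν ∧ ∀ (G : ℕ → ℝ) (d : ℝ), Expanding G d → ∀ κ : ℝ, 0 ≤ κ → d * (2 / 3 - ν) + κ < 1 →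
      (∀ f : ℕ → ℕ, LM f → ∀ U : ℕ, ∃ N₀ : ℕ, ∀ N : ℕ, N₀ ≤ N →
        ({m : ℕ | 1 ≤ m ∧ m ≤ N ∧ ¬ AllRegular M κ (f m) (G (f m))}.ncard : ℝ) ≤ N / Real.log N ^ U) ∧
      (∀ f : ℕ → ℕ, LM f → ∃ K : ℕ → ℕ, Tendsto K atTop atTop ∧
        AlmostAll (fun m => ∀ k ≤ K m, AllRegular M κ (orb f k m) (G (orb f k m)))) ∧
      (∀ fs : List (ℕ → ℕ), (∀ f ∈ fs, PD f) → ∃ c K : ℝ, 0 < c ∧ ∀ N : ℕ, 1 ≤ N →
        ({m : ℕ | 1 ≤ m ∧ m ≤ N ∧ ¬ AllRegular M κ (comp fs m) (G (comp fs m))}.ncard : ℝ) ≤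
          K * N * Real.exp (-(c * Real.log N ^ ((1 : ℝ) / (fs.length + 1)))))) ∧
    (LM (fun m => m) ∧ LM Nat.totient ∧ LM (fun m => ∑ d ∈ m.divisors, d)) ∧
    ((∀ f : ℕ → ℕ, (∀ a b : ℕ, Nat.Coprime a b → f (a * b) = f a + f b) →
      (∃ C : ℕ, ∀ q j : ℕ, q.Prime → 1 ≤ j → f (q ^ j) ≤ C * q ^ j) →
      (∃ P : ℕ, ∀ p q : ℕ, p.Prime → q.Prime → P ≤ p → P ≤ q → f p = f q → p = q) → PD f) ∧
      PD (fun n => n.primeFactors.sup id) ∧ PD (fun n => sInf {k : ℕ | n ∣ k.factorial})) ∧
    ∀ α d : ℝ, 0 < α → 1 ≤ d → Expanding (fun v => α * (v : ℝ) ^ d) d := by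
  refine ⟨fun M hM => ?_, Pool.Agent.S821.Laws.examples⟩
  obtain ⟨hfin, -, hlaw⟩ := Pool.Agent.Results.MP_2ec8a3_nt.RadicalSet.result
  obtain ⟨ν, C, hν, hC, h⟩ := hlaw M hM
  refine ⟨min ν (1 / 3), by positivity, fun G d hG κ hκ h1 => ?_⟩
  refine Pool.Agent.S821.Laws.laws IsRadical (Regular M) (s := 2 / 3 - min ν (1 / 3))
    (by have := min_le_right ν (1 / 3 : ℝ); linarith) (fun ε hε => ⟨C, fun X hX => ?_⟩) hG hκ h1
  have hX1 : (1 : ℝ) ≤ X := by exact_mod_cast hX
  have h2 : {t : ℕ | 1 ≤ t ∧ t ≤ X ∧ IsRadical t ∧ ¬ Regular M t} ⊆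
      {R | R ∈ Pool.Agent.Results.MP_2ec8a3_nt.RadicalSet.radicals (X : ℝ) ∧
        ¬ Pool.Agent.Results.MP_2ec8a3_nt.RadicalSet.Regular M R} := by
    rintro R ⟨-, h3, h4, h5⟩
    exact ⟨⟨by exact_mod_cast h3, h4⟩, h5⟩
  have h3 := Set.ncard_le_ncard h2 (((hfin X).2).subset fun R hR => hR.1)
  calc ({t : ℕ | 1 ≤ t ∧ t ≤ X ∧ IsRadical t ∧ ¬ Regular M t}.ncard : ℝ)
      ≤ ({R | R ∈ Pool.Agent.Results.MP_2ec8a3_nt.RadicalSet.radicals (X : ℝ) ∧
        ¬ Pool.Agent.Results.MP_2ec8a3_nt.RadicalSet.Regular M R}.ncard : ℝ) := by exact_mod_cast h3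
    _ ≤ C * (X : ℝ) ^ (2 / 3 - ν) := (h X hX1).1
    _ ≤ C * (X : ℝ) ^ (2 / 3 - min ν (1 / 3) + ε) := by
        refine mul_le_mul_of_nonneg_left (Real.rpow_le_rpow_of_exponent_le hX1 ?_) hC.le
        have := min_le_left ν (1 / 3 : ℝ)
        linarith

end Pool.Agent.Results.MP_2ec8a3_nt.RadicalsNearValues
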