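import Mathlib
import Pool.Agent.U663.DP.MainE

/-!
# The number of violations of Oesterlé's inequality, for every exponent `M ≥ 1`

For every real `M ≥ 1` at most `C X ^ (E (M) + ε)` abc-triples with `c ≤ X` violate
`c < rad (abc) ^ M`, where `E (M) = 5 / (9 M)` for `M ≥ 16 / 9` and `E` is explicit for
`1 ≤ M ≤ 16 / 9`. For every `k` at most `C X ^ (5 / 9 + ε)` abc-triples with `rad (abc) ≤ X` have
`rad (abc) ≤ c ≤ X ^ k`.

The new argument is a second difference bound (`Pool.Agent.U663.DP.Dp`). Write one member of the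
triple as `A x ^ k`, where `x` is the product of the primes of exact exponent `k ≥ 2`, let `q` and
`r` be the two other members. By the Cauchy-Schwarz inequality over `r` it is enough to bound the
number of pairs of triples with the same `r`. Such a pair gives `A x ^ k - A' x' ^ k = m` with
`m = ± (q - q')`, `m ≠ 0`. For given `A, A', q, q'` this has only `X ^ ε` solutions in a cell
(`Pool.Agent.U663.DP.Fib`): one fixes the greatest common divisor `g` of the two terms, divides the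
variables by their minimal divisors, and then `x / x'` is, up to `X ^ ε` choices, in a given residue
class modulo `m / g` and in a short real interval, and this determines it.
-/

set_option autoImplicit false

namespace Pool.Agent.Results.MP_2ec8a3_nt.ViolationsEveryM

/-- the radical: the product of the distinct primes dividing `n` -/
def radical (n : ℕ) : ℕ := ∏ p ∈ n.primeFactors, p

/-- the abc-triples `(a, b, c)`: positive integers, `a + b = c`, `a` and `b` coprime -/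
def IsTriple (t : ℕ × ℕ × ℕ) : Prop :=
  0 < t.1 ∧ 0 < t.2.1 ∧ Nat.Coprime t.1 t.2.1 ∧ t.1 + t.2.1 = t.2.2

/-- the radical of `abc` -/
def rad3 (t : ℕ × ℕ × ℕ) : ℕ := radical (t.1 * t.2.1 * t.2.2)

/-- the abc-triples with `c ≤ X` which violate Oesterlé's inequality `c < rad (abc) ^ M` -/
def Violations (M : ℝ) (X : ℕ) : Set (ℕ × ℕ × ℕ) :=
  {t | IsTriple t ∧ t.2.2 ≤ X ∧ (rad3 t : ℝ) ^ M ≤ (t.2.2 : ℝ)}

/-- the abc-triples with `rad (abc) ≤ X` and `rad (abc) ≤ c ≤ X ^ k` -/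
def ByRadical (k X : ℕ) : Set (ℕ × ℕ × ℕ) :=
  {t | IsTriple t ∧ rad3 t ≤ X ∧ rad3 t ≤ t.2.2 ∧ t.2.2 ≤ X ^ k}

/-- the exponent, a decreasing function of `M ≥ 1`, `8 / 15` at `M = 1` -/
noncomputable def E (M : ℝ) : ℝ :=
  if 16 / 9 ≤ M then 5 / (9 * M)
  else if 4 / 3 ≤ M then (16 + M) / (32 * M)
  else if 20 / 19 ≤ M then (61 + 3 * M) / (120 * M)
  else (52 + 4 * M) / (105 * M)

theorem triple_of {t : ℕ × ℕ × ℕ} (h : IsTriple t) :
    Pool.Agent.H785R2.ABC.IsABCTriple t.1 t.2.1 t.2.2 := by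
  obtain ⟨a, b, c⟩ := t
  obtain ⟨h1, h2, h3, h4⟩ := h
  simp only at h1 h2 h3 h4
  subst h4
  refine ⟨h1, h2, Nat.add_pos_left h1 b, rfl, h3, ?_, ?_⟩
  · simpa using h3
  · simpa using h3.symm

theorem E_eq {M : ℝ} (h : 1 ≤ M) : Pool.Agent.U663.DP.Gx (1 / M) = E M := by
  have hM : 0 < M := by linarith
  unfold Pool.Agent.U663.DP.Gx E
  by_cases h1 : 16 / 9 ≤ M
  · rw [if_pos h1, if_pos (by rw [div_le_div_iff₀ hM (by norm_num)]; linarith)]
    field_simp
  · push Not at h1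
    rw [if_neg (by linarith : ¬ 16 / 9 ≤ M), if_neg (by
      rw [not_le, div_lt_div_iff₀ (by norm_num) hM]
      linarith)]
    by_cases h2 : 4 / 3 ≤ M
    · rw [if_pos h2, if_pos (by rw [div_le_div_iff₀ hM (by norm_num)]; linarith)]
      field_simp
    · push Not at h2
      rw [if_neg (by linarith : ¬ 4 / 3 ≤ M), if_neg (by
        rw [not_le, div_lt_div_iff₀ (by norm_num) hM]
        linarith)]
      by_cases h3 : 20 / 19 ≤ M
      · rw [if_pos h3, if_pos (by rw [div_le_div_iff₀ hM (by norm_num)]; linarith)]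
        field_simp
      · push Not at h3
        rw [if_neg (by linarith : ¬ 20 / 19 ≤ M), if_neg (by
          rw [not_le, div_lt_div_iff₀ (by norm_num) hM]
          linarith)]
        field_simp

/-- (1) For all real `M ≥ 1` and `ε > 0` there is `C` such that for every `X ≥ 1` at most
`C X ^ (E (M) + ε)` abc-triples with `c ≤ X` violate `c < rad (abc) ^ M`. (2) For every `k` and
`ε > 0` there is `C` such that for every `X ≥ 1` at most `C X ^ (5/9 + ε)` abc-triples with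
`rad (abc) ≤ X` have `rad (abc) ≤ c ≤ X ^ k`. -/
theorem result :
    (∀ M ε : ℝ, 1 ≤ M → 0 < ε → ∃ C : ℝ, ∀ X : ℕ, 1 ≤ X →
      (Violations M X).Finite ∧ ((Violations M X).ncard : ℝ) ≤ C * (X : ℝ) ^ (E M + ε)) ∧
    (∀ (k : ℕ) (ε : ℝ), 0 < ε → ∃ C : ℝ, ∀ X : ℕ, 1 ≤ X →
      (ByRadical k X).Finite ∧ ((ByRadical k X).ncard : ℝ) ≤ C * (X : ℝ) ^ (5 / 9 + ε)) := by
  refine ⟨fun M ε hM hε => ?_, fun k ε hε => ?_⟩
  · have hM0 : 0 < M := by linarith
    obtain ⟨C, hC⟩ := Pool.Agent.U663.DP.count_Gx (1 / M) (by positivity)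
      ((div_le_one hM0).2 hM) ε hε
    refine ⟨C, fun X hX => ?_⟩
    have h1 := hC X hX
    rw [E_eq hM] at h1
    have hsub : Violations M X ⊆ {t : ℕ × ℕ × ℕ |
        Pool.Agent.H785R2.ABC.IsABCTriple t.1 t.2.1 t.2.2 ∧ t.2.2 ≤ X ∧
          (Pool.Agent.H785R2.ABC.rad (t.1 * t.2.1 * t.2.2) : ℝ) ≤ (t.2.2 : ℝ) ^ (1 / M)} := by
      rintro t ⟨h1, h2, h3⟩
      refine ⟨triple_of h1, h2, ?_⟩
      have h4 : (0 : ℝ) ≤ (rad3 t : ℝ) := Nat.cast_nonneg _
      have h5 : ((rad3 t : ℝ) ^ M) ^ (1 / M) ≤ (t.2.2 : ℝ) ^ (1 / M) :=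
        Real.rpow_le_rpow (by positivity) h3 (by positivity)
      rw [← Real.rpow_mul h4, mul_one_div_cancel hM0.ne', Real.rpow_one] at h5
      exact h5
    have hfin : {t : ℕ × ℕ × ℕ |
        Pool.Agent.H785R2.ABC.IsABCTriple t.1 t.2.1 t.2.2 ∧ t.2.2 ≤ X ∧
          (Pool.Agent.H785R2.ABC.rad (t.1 * t.2.1 * t.2.2) : ℝ) ≤
            (t.2.2 : ℝ) ^ (1 / M)}.Finite :=
      Pool.Agent.U663.DP.fin_aux _ X fun t ht => ⟨ht.1, ht.2.1⟩
    refine ⟨hfin.subset hsub, le_trans ?_ h1⟩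
    exact_mod_cast Set.ncard_le_ncard hsub hfin
  · obtain ⟨C, hC⟩ := Pool.Agent.U663.DP.rad_count Pool.Agent.U663.DP.count_Gx k ε hε
    refine ⟨C, fun X hX => ?_⟩
    obtain ⟨hfin, h1⟩ := hC X hX
    have hsub : ByRadical k X ⊆ Pool.Agent.U663.DP.P k X := by
      rintro t ⟨h1, h2, h3, h4⟩
      refine ⟨triple_of h1, ?_, h2, h3⟩
      rw [Real.rpow_natCast]
      exact_mod_cast h4
    refine ⟨hfin.subset hsub, le_trans ?_ h1⟩
    exact_mod_cast Set.ncard_le_ncard hsub hfin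

end Pool.Agent.Results.MP_2ec8a3_nt.ViolationsEveryM
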